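import Pool.Agent.Helper79.AL.St1
import Pool.Agent.Helper39.OS.M_MZZ

/-!
# Project AL (MP_2b6189_al), module SRU: sum rules for the matrix `zz`
-/

set_option autoImplicit false

namespace Pool.Agent.Helper13.AL

open Matrix ComplexConjugate Pool.Agent.Helper94.YG
open Pool.Agent.Helper94.YF hiding StORB
open Pool.Agent.Helper89.OS Pool.Agent.Helper89.OC Pool.Agent.Helper79.AL

theorem hSRU : StSRU := by
  classical
  intro hFCA I _ _ Z p b X h
  have F : FCA Z := hFCA I Z
  have hb : b * b = b := h.lk.idp.idem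
  have hc : (1 - b) * (1 - b) = 1 - b := by
    have : (1 - b) * (1 - b) = 1 - 2 * b + b * b := by ring
    rw [this, hb]; ring
  have hbc : b * (1 - b) = 0 := by
    have : b * (1 - b) = b - b * b := by ring
    rw [this, hb]; ring
  have hp : p.Prime := X.prime
  have hp0 : (p : ℂ) ≠ 0 := by exact_mod_cast hp.ne_zero
  have hn0 : (Z.n : ℂ) ≠ 0 := by exact_mod_cast Z.n_pos.ne'
  have hnm : (Z.n : ℂ) = (p : ℂ) * X.m := by
    have := h.lk.n_eq
    exact_mod_cast this
  have ht : ∀ i, X.t i = Z.tw b i := fun i => by rw [h.lk.t]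
  -- support
  have hsupp : ∀ i k, Z.rho (s2 (1 - b)) i k ≠ 0 → X.t i = X.t k := by
    intro i k hik
    rw [ht, ht]
    exact F.supp b (1 - b) hb hc hbc i k hik
  -- first column of `Sm`
  have hSo : ∀ i, Z.rho Sm i Z.o = (Z.d i : ℂ) / Z.n := by
    intro i
    rw [Z.s_symm, Z.s_o]
  have hyo : ∀ j, Z.rho (s2 b) j Z.o = (X.y j : ℂ) / p := by
    intro j
    have h1 := X.s_o j
    rw [h.lk.s, h.lk.o] at h1
    simp only at h1
    rw [← h1]
    field_simp
  have hSR : ∀ i, Z.rho Sm i Z.o = ∑ j, Z.rho (s2 (1 - b)) i j * Z.rho (s2 b) j Z.o := by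
    intro i
    rw [F.Sm_eq b hb, Matrix.mul_apply]
  refine ⟨?_, ?_, ?_, ?_, ?_⟩
  · intro j k
    unfold zz
    rw [F.sym]
  · intro j k hjk
    apply hsupp
    intro h0
    apply hjk
    unfold zz
    rw [h0, mul_zero]
  · intro j'
    have h1 := hSR j'
    rw [hSo] at h1
    have h2 : (Z.d j' : ℂ) = ∑ j, Z.n * (Z.rho (s2 (1 - b)) j' j * Z.rho (s2 b) j Z.o) := by
      rw [← Finset.mul_sum, ← h1]
      field_simp
    rw [h2]
    apply Finset.sum_congr rfl
    intro j _
    unfold zz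
    rw [hyo, hnm, F.sym (1 - b) j j']
    field_simp
  · intro j
    have h1 := F.uni (s2 (1 - b)) (fun k => if k = j then 1 else 0)
    have h2 : ∀ i, (Z.rho (s2 (1 - b)) *ᵥ (fun k => if k = j then (1 : ℂ) else 0)) i =
        Z.rho (s2 (1 - b)) i j := by
      intro i
      simp [Matrix.mulVec, dotProduct]
    have h3 : ∑ i, ‖(fun k => if k = j then (1 : ℂ) else 0) i‖ ^ 2 = 1 := by
      rw [Finset.sum_eq_single j]
      · simp
      · intro i _ hij
        simp [hij]
      · intro hj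
        exact absurd (Finset.mem_univ j) hj
    rw [h3] at h1
    have h4 : ∀ j', ‖zz Z b X j j'‖ ^ 2 = (X.m : ℝ) ^ 2 * ‖Z.rho (s2 (1 - b)) j' j‖ ^ 2 := by
      intro j'
      unfold zz
      rw [norm_mul, F.sym (1 - b) j j', mul_pow]
      simp
    rw [Finset.sum_congr rfl fun j' _ => h4 j', ← Finset.mul_sum]
    rw [Finset.sum_congr rfl fun i _ => by rw [h2 i]] at h1
    rw [h1, mul_one]
  · intro ζ hζ1 hζp
    set v : I → ℂ := fun j => if X.t j = ζ then Z.rho (s2 b) j Z.o else 0 with hv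
    have hu : ∀ i, (Z.rho (s2 (1 - b)) *ᵥ v) i = if X.t i = ζ then Z.rho Sm i Z.o else 0 := by
      intro i
      rw [Matrix.mulVec, dotProduct]
      by_cases hi : X.t i = ζ
      · rw [if_pos hi, hSR i]
        apply Finset.sum_congr rfl
        intro j _
        by_cases hj : X.t j = ζ
        · simp [hv, hj]
        · have h0 : Z.rho (s2 (1 - b)) i j = 0 := by
            by_contra hne
            exact hj ((hsupp i j hne).symm.trans hi)
          rw [h0, zero_mul, zero_mul]
      · rw [if_neg hi]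
        apply Finset.sum_eq_zero
        intro j _
        by_cases hj : X.t j = ζ
        · have h0 : Z.rho (s2 (1 - b)) i j = 0 := by
            by_contra hne
            exact hi ((hsupp i j hne).trans hj)
          rw [h0, zero_mul]
        · simp [hv, hj]
    have h1 := F.uni (s2 (1 - b)) v
    rw [Finset.sum_congr rfl fun i _ => by rw [hu i]] at h1
    have h2 : ∀ i, ‖(if X.t i = ζ then Z.rho Sm i Z.o else 0 : ℂ)‖ ^ 2 =
        (if X.t i = ζ then (Z.d i : ℝ) ^ 2 else 0) / (Z.n : ℝ) ^ 2 := by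
      intro i
      by_cases hi : X.t i = ζ
      · rw [if_pos hi, if_pos hi, hSo, norm_div, div_pow]
        simp
      · simp [hi]
    have h3 : ∀ i, ‖v i‖ ^ 2 = ((if X.t i = ζ then X.y i ^ 2 else 0 : ℤ) : ℝ) / (p : ℝ) ^ 2 := by
      intro i
      by_cases hi : X.t i = ζ
      · simp only [hv, hi, if_true, hyo, norm_div, div_pow]
        congr 1
        · rw [Complex.norm_intCast, sq_abs]
          push_cast
          rfl
        · simp
      · simp [hv, hi]
    rw [Finset.sum_congr rfl fun i _ => h2 i, Finset.sum_congr rfl fun i _ => h3 i,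
      ← Finset.sum_div, ← Finset.sum_div, ← Int.cast_sum] at h1
    have h4 := (Helper39.OS.hMZZ I p X).1 ζ hζ1 hζp
    have h5 : (∑ i, if X.t i = ζ then X.y i ^ 2 else 0) = gX X := by
      rw [gX, ← h4]
    rw [h5] at h1
    have hpR : (p : ℝ) ≠ 0 := by exact_mod_cast hp.ne_zero
    have hnR : (Z.n : ℝ) ≠ 0 := by exact_mod_cast Z.n_pos.ne'
    have hnmR : (Z.n : ℝ) = (p : ℝ) * X.m := by
      have := h.lk.n_eq
      exact_mod_cast this
    rw [div_eq_div_iff (pow_ne_zero 2 hnR) (pow_ne_zero 2 hpR), hnmR] at h1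
    have h6 : (∑ j, if X.t j = ζ then (Z.d j : ℝ) ^ 2 else 0) * (p : ℝ) ^ 2 =
        ((X.m : ℝ) ^ 2 * (gX X : ℝ)) * (p : ℝ) ^ 2 := by
      rw [h1]; ring
    exact mul_right_cancel₀ (pow_ne_zero 2 hpR) h6

end Pool.Agent.Helper13.AL
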